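import Pool.Agent.H173K.PC.Interval

set_option autoImplicit false
set_option linter.unusedSectionVars false

/-!
Chowla's theorem on sums of subsets of `ZMod N`.
-/

namespace Pool.Agent.H173K.PC

open Finset
open scoped Pointwise

variable {N : ℕ} [NeZero N]

/-- Chowla's theorem, with `0` in the second set. -/
lemma chowla_zero (n : ℕ) : ∀ (A B : Finset (ZMod N)), B.card = n → A.Nonempty → 0 ∈ B →
    (∀ b ∈ B, b ≠ 0 → IsUnit b) → (A + B).card < N → A.card + B.card ≤ (A + B).card + 1 := by
  induction n using Nat.strong_induction_on with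
  | _ n ih =>
  intro A B hBn hA h0 hB hlt
  by_cases hone : ∀ b ∈ B, b = 0
  · have hB0 : B = {0} := by
      ext b
      rw [mem_singleton]
      exact ⟨hone b, fun h => h ▸ h0⟩
    rw [hB0, add_singleton]
    simp
  push Not at hone
  obtain ⟨b1, hb1, hb10⟩ := hone
  have hABne : (A + B).Nonempty := hA.add ⟨0, h0⟩
  have hABu : A + B ≠ univ := by
    intro h
    rw [h, card_univ, ZMod.card] at hlt
    exact lt_irrefl _ hlt
  -- an element of `A + B + B` not in `A + B`
  obtain ⟨c, hc1, hc2⟩ : ∃ c ∈ A + B + B, c ∉ A + B := by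
    by_contra hcon
    push Not at hcon
    have h1 := grow hABne hABu (hB b1 hb1 hb10)
    have h2 : two (A + B) b1 ⊆ A + B := by
      intro y hy
      rcases mem_two.1 hy with hy | ⟨z, hz, rfl⟩
      · exact hy
      · exact hcon _ (add_mem_add hz hb1)
    have h3 := card_le_card h2
    omega
  set B1 := B.filter (fun b => c - b ∈ A + B) with hB1
  set B2 := B.filter (fun b => ¬ c - b ∈ A + B) with hB2
  have hcard : B1.card + B2.card = B.card := card_filter_add_card_filter_not _
  have hB1ne : 0 < B1.card := by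
    rw [card_pos]
    obtain ⟨w, hw, b, hb, rfl⟩ := mem_add.1 hc1
    exact ⟨b, mem_filter.2 ⟨hb, by rw [add_sub_cancel_right]; exact hw⟩⟩
  have h02 : (0 : ZMod N) ∈ B2 := mem_filter.2 ⟨h0, by rw [sub_zero]; exact hc2⟩
  have hB2sub : B2 ⊆ B := filter_subset _ _
  have hsub : A + B2 ⊆ A + B := add_subset_add_left hB2sub
  have h1 := ih B2.card (by omega) A B2 rfl hA h02 (fun b hb => hB b (hB2sub hb))
    (lt_of_le_of_lt (card_le_card hsub) hlt)
  have hdisj : Disjoint (A + B2) (B1.image (fun b => c - b)) := by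
    rw [disjoint_left]
    intro y hy hy'
    obtain ⟨b, hb, rfl⟩ := mem_image.1 hy'
    obtain ⟨a, ha, b2, hb2, hab⟩ := mem_add.1 hy
    apply (mem_filter.1 hb2).2
    have h3 : c - b2 = a + b := by linear_combination -hab
    rw [h3]
    exact add_mem_add ha (mem_filter.1 hb).1
  have hsub2 : A + B2 ∪ B1.image (fun b => c - b) ⊆ A + B := by
    apply union_subset hsub
    intro y hy
    obtain ⟨b, hb, rfl⟩ := mem_image.1 hy
    exact (mem_filter.1 hb).2
  have h2 := card_le_card hsub2
  rw [card_union_of_disjoint hdisj, card_image_of_injective _ (sub_right_injective)] at h2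
  omega

/-- Chowla's theorem. -/
lemma chowla {A B : Finset (ZMod N)} (hA : A.Nonempty) (hBne : B.Nonempty)
    (hB : ∀ b ∈ B, ∀ b' ∈ B, b ≠ b' → IsUnit (b - b')) (hlt : (A + B).card < N) :
    A.card + B.card ≤ (A + B).card + 1 := by
  obtain ⟨b0, hb0⟩ := hBne
  have h1 : (A + B).image (fun y => y - b0) = A + B.image (fun y => y - b0) := by
    ext y
    rw [mem_image, mem_add]
    constructor
    · rintro ⟨z, hz, rfl⟩
      obtain ⟨a, ha, b, hb, rfl⟩ := mem_add.1 hz
      exact ⟨a, ha, b - b0, mem_image.2 ⟨b, hb, rfl⟩, by ring⟩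
    · rintro ⟨a, ha, z, hz, rfl⟩
      obtain ⟨b, hb, rfl⟩ := mem_image.1 hz
      exact ⟨a + b, add_mem_add ha hb, by ring⟩
  have h2 : (A + B.image (fun y => y - b0)).card = (A + B).card := by
    rw [← h1, card_image_of_injective _ (sub_left_injective)]
  have h3 := chowla_zero _ A (B.image (fun y => y - b0)) rfl hA
    (mem_image.2 ⟨b0, hb0, sub_self _⟩) (fun b hb hbne => by
      obtain ⟨b', hb', rfl⟩ := mem_image.1 hb
      exact hB b' hb' b0 hb0 (fun h => hbne (by rw [h, sub_self]))) (by rw [h2]; exact hlt)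
  rw [h2, card_image_of_injective _ (sub_left_injective)] at h3
  exact h3

end Pool.Agent.H173K.PC
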