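import Mathlib

set_option autoImplicit false
set_option linter.unusedSectionVars false

/-!
Intervals in `ZMod N` and subset sums of units.
-/

namespace Pool.Agent.H173K.PC

open Finset

variable {N : ℕ} [NeZero N]

/-- least absolute value of a residue class -/
def ab (x : ZMod N) : ℕ := x.valMinAbs.natAbs

lemma ab_le (x : ZMod N) : 2 * ab x ≤ N := by
  have := ZMod.natAbs_valMinAbs_le x
  unfold ab
  omega

lemma ab_neg (x : ZMod N) : ab (-x) = ab x := ZMod.natAbs_valMinAbs_neg x

lemma ab_nat {k : ℕ} (h : 2 * k ≤ N) : ab (k : ZMod N) = k := by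
  unfold ab
  rw [ZMod.valMinAbs_natCast_of_le_half (by omega)]
  simp

lemma ab_one (h : 2 ≤ N) : ab (1 : ZMod N) = 1 := by
  have := ab_nat (N := N) (k := 1) (by omega)
  simpa using this

lemma ab_zero : ab (0 : ZMod N) = 0 := by
  unfold ab
  simp

lemma eq_ab (x : ZMod N) : x = (ab x : ZMod N) ∨ x = -(ab x : ZMod N) := by
  have h := x.coe_valMinAbs
  have h0 : ((ab x : ℕ) : ZMod N) = (((x.valMinAbs.natAbs : ℕ) : ℤ) : ZMod N) := by
    rw [Int.cast_natCast]
    rfl
  rcases Int.natAbs_eq x.valMinAbs with h1 | h1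
  · left
    rw [h0, ← h1, h]
  · right
    rw [h0, ← Int.cast_neg, ← h1, h]

lemma ab_pos {x : ZMod N} (hN : 2 ≤ N) (h : IsUnit x) : 1 ≤ ab x := by
  by_contra hcon
  have h0 : ab x = 0 := by omega
  have : Fact (1 < N) := ⟨by omega⟩
  rcases eq_ab x with h1 | h1 <;> rw [h0] at h1 <;> simp at h1 <;> exact h.ne_zero h1

/-- the interval `x, x + 1, ..., x + l - 1` -/
def I (x : ZMod N) (l : ℕ) : Finset (ZMod N) := (range l).image (fun i : ℕ => x + (i : ZMod N))

lemma mem_I {x y : ZMod N} {l : ℕ} : y ∈ I x l ↔ ∃ i < l, x + (i : ZMod N) = y := by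
  simp [I]

lemma card_I {x : ZMod N} {l : ℕ} (h : l ≤ N) : (I x l).card = l := by
  unfold I
  rw [card_image_of_injOn, card_range]
  intro i hi j hj hij
  simp only [coe_range, Set.mem_Iio] at hi hj
  have h1 : (i : ZMod N) = (j : ZMod N) := add_left_cancel hij
  have h2 := congrArg ZMod.val h1
  rwa [ZMod.val_natCast_of_lt (by omega), ZMod.val_natCast_of_lt (by omega)] at h2

lemma I_univ {x : ZMod N} {l : ℕ} (h : N ≤ l) : I x l = univ := by
  ext y
  simp only [mem_I, mem_univ, iff_true]
  refine ⟨(y - x).val, lt_of_lt_of_le (ZMod.val_lt _) h, ?_⟩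
  rw [ZMod.natCast_zmod_val]
  ring

/-- `S` and its translate by `d` -/
def two (S : Finset (ZMod N)) (d : ZMod N) : Finset (ZMod N) := S ∪ S.image (fun y => y + d)

omit [NeZero N] in
lemma mem_two {S : Finset (ZMod N)} {d y : ZMod N} : y ∈ two S d ↔ y ∈ S ∨ ∃ z ∈ S, z + d = y := by
  unfold two
  rw [mem_union, mem_image]

omit [NeZero N] in
lemma two_mono {S T : Finset (ZMod N)} (h : S ⊆ T) (d : ZMod N) : two S d ⊆ two T d := by
  intro y hy
  rw [mem_two] at hy ⊢
  rcases hy with hy | ⟨z, hz, rfl⟩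
  · exact Or.inl (h hy)
  · exact Or.inr ⟨z, h hz, rfl⟩

/-- the inclusion in an interval -/
lemma two_I_sub (x : ZMod N) (l : ℕ) (d : ZMod N) : ∃ x', two (I x l) d ⊆ I x' (l + ab d) := by
  rcases eq_ab d with h | h
  · refine ⟨x, fun y hy => ?_⟩
    rw [mem_two] at hy
    rw [mem_I]
    rcases hy with hy | ⟨z, hz, rfl⟩
    · obtain ⟨i, hi, rfl⟩ := mem_I.1 hy
      exact ⟨i, by omega, rfl⟩
    · obtain ⟨i, hi, rfl⟩ := mem_I.1 hz
      refine ⟨i + ab d, by omega, ?_⟩
      nth_rw 2 [h]
      push_cast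
      ring
  · refine ⟨x - (ab d : ZMod N), fun y hy => ?_⟩
    rw [mem_two] at hy
    rw [mem_I]
    rcases hy with hy | ⟨z, hz, rfl⟩
    · obtain ⟨i, hi, rfl⟩ := mem_I.1 hy
      refine ⟨i + ab d, by omega, ?_⟩
      push_cast
      ring
    · obtain ⟨i, hi, rfl⟩ := mem_I.1 hz
      refine ⟨i, by omega, ?_⟩
      nth_rw 2 [h]
      ring

/-- the union of an interval and a translate by at most its length is an interval -/
lemma two_I (x : ZMod N) (l : ℕ) (d : ZMod N) (hd : ab d ≤ l) :
    ∃ x', two (I x l) d = I x' (l + ab d) := by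
  rcases eq_ab d with h | h
  · refine ⟨x, ?_⟩
    ext y
    rw [mem_two, mem_I, mem_I]
    constructor
    · rintro (⟨i, hi, rfl⟩ | ⟨z, hz, rfl⟩)
      · exact ⟨i, by omega, rfl⟩
      · obtain ⟨i, hi, rfl⟩ := mem_I.1 hz
        refine ⟨i + ab d, by omega, ?_⟩
        nth_rw 2 [h]
        push_cast
        ring
    · rintro ⟨i, hi, rfl⟩
      by_cases hil : i < l
      · exact Or.inl ⟨i, hil, rfl⟩
      · refine Or.inr ⟨x + ((i - ab d : ℕ) : ZMod N), mem_I.2 ⟨i - ab d, by omega, rfl⟩, ?_⟩
        rw [Nat.cast_sub (by omega)]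
        nth_rw 2 [h]
        ring
  · refine ⟨x - (ab d : ZMod N), ?_⟩
    ext y
    rw [mem_two, mem_I, mem_I]
    constructor
    · rintro (⟨i, hi, rfl⟩ | ⟨z, hz, rfl⟩)
      · refine ⟨i + ab d, by omega, ?_⟩
        push_cast
        ring
      · obtain ⟨i, hi, rfl⟩ := mem_I.1 hz
        refine ⟨i, by omega, ?_⟩
        nth_rw 2 [h]
        ring
    · rintro ⟨i, hi, rfl⟩
      by_cases hil : i < l
      · refine Or.inr ⟨x + (i : ZMod N), mem_I.2 ⟨i, hil, rfl⟩, ?_⟩
        nth_rw 1 [h]
        ring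
      · refine Or.inl ⟨i - ab d, by omega, ?_⟩
        rw [Nat.cast_sub (by omega)]
        ring

/-- an interval and a translate by at least its length are disjoint -/
lemma card_two_I (x : ZMod N) (l : ℕ) (d : ZMod N) (hd : l ≤ ab d) :
    (two (I x l) d).card = 2 * l := by
  have h2 := ab_le d
  unfold two
  rw [card_union_of_disjoint, card_image_of_injective _ (add_left_injective d),
    card_I (by omega)]
  · omega
  · rw [disjoint_left]
    intro y hy hy'
    obtain ⟨i, hi, rfl⟩ := mem_I.1 hy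
    obtain ⟨z, hz, hzy⟩ := mem_image.1 hy'
    obtain ⟨j, hj, rfl⟩ := mem_I.1 hz
    rcases eq_ab d with h | h
    · have h1 : ((j + ab d : ℕ) : ZMod N) = (i : ZMod N) := by
        rw [h] at hzy
        push_cast
        linear_combination hzy
      have h2 := congrArg ZMod.val h1
      rw [ZMod.val_natCast_of_lt (by omega), ZMod.val_natCast_of_lt (by omega)] at h2
      omega
    · have h1 : ((i + ab d : ℕ) : ZMod N) = (j : ZMod N) := by
        rw [h] at hzy
        push_cast
        linear_combination -hzy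
      have h2 := congrArg ZMod.val h1
      rw [ZMod.val_natCast_of_lt (by omega), ZMod.val_natCast_of_lt (by omega)] at h2
      omega

lemma grow_one {S : Finset (ZMod N)} (hne : S.Nonempty) (hnu : S ≠ univ) :
    S.card + 1 ≤ (two S 1).card := by
  by_contra hcon
  have h1 : S ⊆ two S 1 := subset_union_left
  have h2 : two S 1 = S := (eq_of_subset_of_card_le h1 (by omega)).symm
  have h3 : ∀ z ∈ S, z + 1 ∈ S := fun z hz => by
    rw [← h2]
    exact mem_two.2 (Or.inr ⟨z, hz, rfl⟩)
  obtain ⟨z, hz⟩ := hne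
  have h4 : ∀ n : ℕ, z + (n : ZMod N) ∈ S := by
    intro n
    induction n with
    | zero => simpa using hz
    | succ n ih =>
      have := h3 _ ih
      push_cast
      rwa [← add_assoc]
  apply hnu
  ext y
  simp only [mem_univ, iff_true]
  have := h4 (y - z).val
  rw [ZMod.natCast_zmod_val] at this
  simpa using this

lemma eq_I_of_card {S : Finset (ZMod N)} (hne : S.Nonempty)
    (h : (two S 1).card = S.card + 1) : ∃ x, S = I x S.card := by
  classical
  set E := S.filter (fun y => y + 1 ∉ S) with hE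
  have hEc : E.card = 1 := by
    have h1 : (two S 1).card = S.card + (E.image (fun y => y + 1)).card := by
      rw [← card_union_of_disjoint]
      · congr 1
        ext y
        rw [mem_two, mem_union, mem_image]
        constructor
        · rintro (hy | ⟨z, hz, rfl⟩)
          · exact Or.inl hy
          · by_cases hz1 : z + 1 ∈ S
            · exact Or.inl hz1
            · exact Or.inr ⟨z, mem_filter.2 ⟨hz, hz1⟩, rfl⟩
        · rintro (hy | ⟨z, hz, rfl⟩)
          · exact Or.inl hy
          · exact Or.inr ⟨z, (mem_filter.1 hz).1, rfl⟩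
      · rw [disjoint_left]
        intro y hy hy'
        obtain ⟨z, hz, rfl⟩ := mem_image.1 hy'
        exact (mem_filter.1 hz).2 hy
    rw [card_image_of_injective _ (add_left_injective _)] at h1
    omega
  obtain ⟨y, hy⟩ := card_eq_one.1 hEc
  have hstep : ∀ z ∈ S, z ≠ y → z + 1 ∈ S := by
    intro z hz hzy
    by_contra hcon
    have : z ∈ E := mem_filter.2 ⟨hz, hcon⟩
    rw [hy, mem_singleton] at this
    exact hzy this
  have hSN : S.card ≤ N := by
    have := card_le_univ S
    rwa [ZMod.card] at this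
  have hclaim : ∀ i < S.card, y - (i : ZMod N) ∈ S := by
    intro i
    induction i using Nat.strong_induction_on with
    | _ i ih =>
      intro hi
      -- an element not among the last ones
      obtain ⟨z, hzS, hz⟩ : ∃ z ∈ S, z ∉ (range i).image (fun k : ℕ => y - (k : ZMod N)) := by
        by_contra hcon
        push Not at hcon
        have := card_le_card (fun z hz => hcon z hz)
        have h2 := card_image_le (s := range i) (f := fun k : ℕ => y - (k : ZMod N))
        rw [card_range] at h2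
        omega
      set k := (y - z).val with hk
      have hkN : k < N := ZMod.val_lt _
      have hzk : z = y - (k : ZMod N) := by
        rw [hk, ZMod.natCast_zmod_val]
        ring
      have hki : i ≤ k := by
        by_contra hcon
        exact hz (mem_image.2 ⟨k, mem_range.2 (by omega), hzk.symm⟩)
      have hdown : ∀ t : ℕ, t ≤ k → y - ((k - t : ℕ) : ZMod N) ∈ S := by
        intro t
        induction t with
        | zero => intro _; rw [Nat.sub_zero, ← hzk]; exact hzS
        | succ t iht =>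
          intro ht
          have h1 := iht (by omega)
          have h2 : y - ((k - t : ℕ) : ZMod N) ≠ y := by
            intro h3
            have h4 : ((k - t : ℕ) : ZMod N) = ((0 : ℕ) : ZMod N) := by
              push_cast
              linear_combination -h3
            have h5 := congrArg ZMod.val h4
            rw [ZMod.val_natCast_of_lt (by omega), ZMod.val_natCast_of_lt (by omega)] at h5
            omega
          have h3 := hstep _ h1 h2
          have h4 : y - ((k - t : ℕ) : ZMod N) + 1 = y - ((k - (t + 1) : ℕ) : ZMod N) := by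
            rw [show k - t = (k - (t + 1)) + 1 by omega]
            push_cast
            ring
          rwa [h4] at h3
      have := hdown (k - i) (by omega)
      rwa [show k - (k - i) = i by omega] at this
  refine ⟨y - ((S.card - 1 : ℕ) : ZMod N), ?_⟩
  have hpos : 0 < S.card := card_pos.2 hne
  refine (eq_of_subset_of_card_le ?_ ?_).symm
  · intro w hw
    obtain ⟨i, hi, rfl⟩ := mem_I.1 hw
    have := hclaim (S.card - 1 - i) (by omega)
    rw [Nat.cast_sub (by omega)] at this
    convert this using 1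
    ring
  · rw [card_I hSN]

/-- the step of an interval is unique up to sign -/
lemma step_unique {x : ZMod N} {l : ℕ} (h2 : 2 ≤ l) (hl : l + 2 ≤ N) {d : ZMod N}
    (h : (two (I x l) d).card = l + 1) : d = 1 ∨ d = -1 := by
  have h1 : ab d = 1 := by
    by_cases hd : ab d ≤ l
    · obtain ⟨x', hx'⟩ := two_I x l d hd
      rw [hx'] at h
      by_cases hN : l + ab d ≤ N
      · rw [card_I hN] at h
        omega
      · rw [I_univ (by omega), card_univ, ZMod.card] at h
        omega
    · rw [card_two_I x l d (by omega)] at h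
      omega
  rcases eq_ab d with h3 | h3 <;> rw [h1] at h3 <;> simp at h3
  · exact Or.inl h3
  · exact Or.inr h3

/-! ### scaling -/

omit [NeZero N] in
lemma mul_inj {g : ZMod N} (hg : IsUnit g) : Function.Injective (fun y : ZMod N => g * y) :=
  fun _ _ h => hg.mul_left_cancel h

omit [NeZero N] in
lemma two_scale {g : ZMod N} (S : Finset (ZMod N)) (d : ZMod N) :
    two (S.image (fun y => g * y)) (g * d) = (two S d).image (fun y => g * y) := by
  ext y
  constructor
  · intro h
    rcases mem_two.1 h with hy | ⟨z, hz, rfl⟩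
    · obtain ⟨w, hw, rfl⟩ := mem_image.1 hy
      exact mem_image.2 ⟨w, mem_two.2 (Or.inl hw), rfl⟩
    · obtain ⟨w, hw, rfl⟩ := mem_image.1 hz
      exact mem_image.2 ⟨w + d, mem_two.2 (Or.inr ⟨w, hw, rfl⟩), by ring⟩
  · intro h
    obtain ⟨w, hw, rfl⟩ := mem_image.1 h
    rcases mem_two.1 hw with hw | ⟨z, hz, rfl⟩
    · exact mem_two.2 (Or.inl (mem_image.2 ⟨w, hw, rfl⟩))
    · exact mem_two.2 (Or.inr ⟨g * z, mem_image.2 ⟨z, hz, rfl⟩, by ring⟩)

omit [NeZero N] in
lemma image_inv {g : (ZMod N)ˣ} (S : Finset (ZMod N)) :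
    (S.image (fun y => ((g⁻¹ : (ZMod N)ˣ) : ZMod N) * y)).image (fun y => (g : ZMod N) * y) = S := by
  rw [image_image]
  ext y
  rw [mem_image]
  constructor
  · rintro ⟨z, hz, rfl⟩
    simpa using hz
  · intro hy
    exact ⟨y, hy, by simp⟩

omit [NeZero N] in
lemma card_two_scale (g : (ZMod N)ˣ) (S : Finset (ZMod N)) (d : ZMod N) :
    (two (S.image (fun y => (g : ZMod N) * y)) (g * d)).card = (two S d).card := by
  rw [two_scale, card_image_of_injective _ (mul_inj g.isUnit)]

lemma grow {S : Finset (ZMod N)} (hne : S.Nonempty) (hnu : S ≠ univ) {d : ZMod N}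
    (hd : IsUnit d) : S.card + 1 ≤ (two S d).card := by
  obtain ⟨g, rfl⟩ := hd
  have h1 := card_two_scale g (S.image (fun y => ((g⁻¹ : (ZMod N)ˣ) : ZMod N) * y)) 1
  rw [image_inv, mul_one] at h1
  rw [h1]
  have h2 : (S.image (fun y => ((g⁻¹ : (ZMod N)ˣ) : ZMod N) * y)).card = S.card :=
    card_image_of_injective _ (mul_inj (g⁻¹).isUnit)
  rw [← h2]
  apply grow_one (hne.image _)
  intro h3
  apply hnu
  rw [← image_inv (g := g) S, h3]
  rw [image_univ_of_surjective]
  intro y
  exact ⟨((g⁻¹ : (ZMod N)ˣ) : ZMod N) * y, by simp⟩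

/-- `S` is an arithmetic progression with step `g` -/
def IsAP (g : ZMod N) (S : Finset (ZMod N)) : Prop :=
  ∃ (x : ZMod N) (l : ℕ), S = (I x l).image (fun y => g * y)

lemma isAP_of_card {S : Finset (ZMod N)} (hne : S.Nonempty) (g : (ZMod N)ˣ)
    (h : (two S (g : ZMod N)).card = S.card + 1) : IsAP (g : ZMod N) S := by
  have h1 := card_two_scale g (S.image (fun y => ((g⁻¹ : (ZMod N)ˣ) : ZMod N) * y)) 1
  rw [image_inv, mul_one] at h1
  have h2 : (S.image (fun y => ((g⁻¹ : (ZMod N)ˣ) : ZMod N) * y)).card = S.card :=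
    card_image_of_injective _ (mul_inj (g⁻¹).isUnit)
  obtain ⟨x, hx⟩ := eq_I_of_card (hne.image (fun y => ((g⁻¹ : (ZMod N)ˣ) : ZMod N) * y))
    (by rw [← h1, h2, h])
  exact ⟨x, _, by rw [← hx, image_inv]⟩

/-- adding the step keeps a progression -/
lemma IsAP.two {g : ZMod N} {S : Finset (ZMod N)} (hN : 2 ≤ N) (h : IsAP g S) {d : ZMod N}
    (hd : d = g ∨ d = -g) (hne : S.Nonempty) : IsAP g (two S d) := by
  obtain ⟨x, l, rfl⟩ := h
  have hl : 1 ≤ l := by
    by_contra hcon
    have : l = 0 := by omega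
    subst this
    simp [I] at hne
  rcases hd with rfl | rfl
  · obtain ⟨x', hx'⟩ := two_I x l 1 (by rw [ab_one hN]; exact hl)
    have h1 := two_scale (g := d) (I x l) 1
    rw [mul_one, hx'] at h1
    exact ⟨x', _, h1⟩
  · obtain ⟨x', hx'⟩ := two_I x l (-1) (by rw [ab_neg, ab_one hN]; exact hl)
    have h1 := two_scale (g := g) (I x l) (-1)
    rw [mul_neg, mul_one, hx'] at h1
    exact ⟨x', _, h1⟩

/-- a progression with two steps -/
lemma IsAP.unique {S : Finset (ZMod N)} {g h : (ZMod N)ˣ} (hg : IsAP (g : ZMod N) S)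
    (hh : (Pool.Agent.H173K.PC.two S (h : ZMod N)).card = S.card + 1)
    (h2 : 2 ≤ S.card) (h3 : S.card + 2 ≤ N) :
    (h : ZMod N) = g ∨ (h : ZMod N) = -g := by
  obtain ⟨x, l, rfl⟩ := hg
  rw [card_image_of_injective _ (mul_inj g.isUnit)] at h2 h3 hh
  have hlN : l ≤ N := by
    by_contra hcon
    rw [I_univ (by omega), card_univ, ZMod.card] at h3
    omega
  rw [card_I hlN] at h2 h3 hh
  have h4 := card_two_scale g (I x l) ((g⁻¹ : (ZMod N)ˣ) * h)
  have h5 : (g : ZMod N) * ((g⁻¹ : (ZMod N)ˣ) * h) = h := by simp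
  rw [h5, hh] at h4
  rcases step_unique h2 h3 h4.symm with h6 | h6
  · left
    rw [← h5, h6, mul_one]
  · right
    rw [← h5, h6, mul_neg, mul_one]

lemma IsAP.card_two {S : Finset (ZMod N)} {g : (ZMod N)ˣ} (hg : IsAP (g : ZMod N) S)
    (h1 : 1 ≤ S.card) (h3 : S.card + 1 ≤ N) :
    (Pool.Agent.H173K.PC.two S (g : ZMod N)).card = S.card + 1 := by
  obtain ⟨x, l, rfl⟩ := hg
  rw [card_image_of_injective _ (mul_inj g.isUnit)] at h1 h3 ⊢
  have hlN : l ≤ N := by
    by_contra hcon
    rw [I_univ (by omega), card_univ, ZMod.card] at h3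
    omega
  rw [card_I hlN] at h1 h3 ⊢
  have h4 := card_two_scale g (I x l) 1
  rw [mul_one] at h4
  have h5 := ab_one (N := N) (by omega)
  obtain ⟨x', hx'⟩ := two_I x l 1 (by rw [h5]; exact h1)
  rw [h4, hx', card_I (by rw [h5]; exact h3), h5]

end Pool.Agent.H173K.PC
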