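import Pool.Agent.H173K.PC.Interval

set_option autoImplicit false
set_option linter.unusedSectionVars false

/-!
Subset sums of many units of `ZMod N` which do not cover `ZMod N` form an arithmetic progression.
-/

namespace Pool.Agent.H173K.PC

open Finset

variable {N : ℕ} [NeZero N] {ι : Type*} [DecidableEq ι]

/-- the sums over the subsets of `s` -/
def FS (c : ι → ZMod N) (s : Finset ι) : Finset (ZMod N) :=
  s.powerset.image (fun t => ∑ i ∈ t, c i)

lemma mem_FS {c : ι → ZMod N} {s : Finset ι} {y : ZMod N} :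
    y ∈ FS c s ↔ ∃ t ⊆ s, ∑ i ∈ t, c i = y := by
  unfold FS
  rw [mem_image]
  simp only [mem_powerset]

lemma FS_empty (c : ι → ZMod N) : FS c ∅ = {0} := by
  ext y
  rw [mem_FS, mem_singleton]
  constructor
  · rintro ⟨t, ht, rfl⟩
    rw [subset_empty.1 ht, sum_empty]
  · rintro rfl
    exact ⟨∅, subset_rfl, sum_empty⟩

lemma FS_insert {c : ι → ZMod N} {s : Finset ι} {i : ι} (hi : i ∉ s) :
    FS c (insert i s) = two (FS c s) (c i) := by
  ext y
  rw [mem_FS, mem_two, mem_FS]
  constructor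
  · rintro ⟨t, ht, rfl⟩
    by_cases hit : i ∈ t
    · right
      refine ⟨∑ j ∈ t.erase i, c j, mem_FS.2 ⟨t.erase i, ?_, rfl⟩, sum_erase_add t c hit⟩
      intro j hj
      rcases mem_insert.1 (ht (mem_of_mem_erase hj)) with h | h
      · exact absurd h (ne_of_mem_erase hj)
      · exact h
    · left
      refine ⟨t, ?_, rfl⟩
      intro j hj
      rcases mem_insert.1 (ht hj) with h | h
      · rw [h] at hj
        exact absurd hj hit
      · exact h
  · rintro (⟨t, ht, rfl⟩ | ⟨z, hz, rfl⟩)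
    · exact ⟨t, ht.trans (subset_insert _ _), rfl⟩
    · obtain ⟨t, ht, rfl⟩ := mem_FS.1 hz
      refine ⟨insert i t, insert_subset_insert _ ht, ?_⟩
      rw [sum_insert (fun h => hi (ht h)), add_comm]

lemma FS_mono (c : ι → ZMod N) {s t : Finset ι} (h : s ⊆ t) : FS c s ⊆ FS c t := by
  intro y hy
  obtain ⟨u, hu, rfl⟩ := mem_FS.1 hy
  exact mem_FS.2 ⟨u, hu.trans h, rfl⟩

lemma FS_nonempty (c : ι → ZMod N) (s : Finset ι) : (FS c s).Nonempty :=
  ⟨0, mem_FS.2 ⟨∅, empty_subset _, sum_empty⟩⟩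

lemma FS_scale (g : ZMod N) (c : ι → ZMod N) (s : Finset ι) :
    FS (fun i => g * c i) s = (FS c s).image (fun y => g * y) := by
  ext y
  rw [mem_FS, mem_image]
  constructor
  · rintro ⟨t, ht, rfl⟩
    exact ⟨∑ i ∈ t, c i, mem_FS.2 ⟨t, ht, rfl⟩, by rw [mul_sum]⟩
  · rintro ⟨z, hz, rfl⟩
    obtain ⟨t, ht, rfl⟩ := mem_FS.1 hz
    exact ⟨t, ht, by rw [mul_sum]⟩

lemma card_FS_scale (g : (ZMod N)ˣ) (c : ι → ZMod N) (s : Finset ι) :
    (FS (fun i => (g : ZMod N) * c i) s).card = (FS c s).card := by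
  rw [FS_scale, card_image_of_injective _ (mul_inj g.isUnit)]

lemma FS_grow {c : ι → ZMod N} {s : Finset ι} {i : ι} (hi : i ∉ s) (hc : IsUnit (c i))
    (h : FS c s ≠ univ) : (FS c s).card + 1 ≤ (FS c (insert i s)).card := by
  rw [FS_insert hi]
  exact grow (FS_nonempty c s) h hc

lemma ne_univ_of_card {S : Finset (ZMod N)} (h : S.card < N) : S ≠ univ := by
  rintro rfl
  rw [card_univ, ZMod.card] at h
  omega

lemma card_FS_ge (c : ι → ZMod N) (s : Finset ι) (hc : ∀ i ∈ s, IsUnit (c i))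
    (h : (FS c s).card < N) : s.card + 1 ≤ (FS c s).card := by
  induction s using Finset.induction_on with
  | empty => rw [FS_empty]; simp
  | insert i s hi ih =>
    have h1 : (FS c s).card ≤ (FS c (insert i s)).card := card_le_card (FS_mono c (subset_insert _ _))
    have h2 := ih (fun j hj => hc j (mem_insert_of_mem hj)) (by omega)
    have h3 := FS_grow hi (hc i (mem_insert_self _ _)) (ne_univ_of_card (by omega : (FS c s).card < N))
    rw [card_insert_of_notMem hi]
    omega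

lemma FS_sub (c : ι → ZMod N) (s : Finset ι) : ∃ x, FS c s ⊆ I x (1 + ∑ i ∈ s, ab (c i)) := by
  induction s using Finset.induction_on with
  | empty =>
    refine ⟨0, ?_⟩
    rw [FS_empty, sum_empty]
    intro y hy
    rw [mem_singleton] at hy
    exact mem_I.2 ⟨0, by omega, by rw [hy]; simp⟩
  | insert i s hi ih =>
    obtain ⟨x, hx⟩ := ih
    obtain ⟨x', hx'⟩ := two_I_sub x (1 + ∑ i ∈ s, ab (c i)) (c i)
    refine ⟨x', ?_⟩
    rw [FS_insert hi, sum_insert hi]
    have h1 := (two_mono hx (c i)).trans hx'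
    rwa [show 1 + (ab (c i) + ∑ i ∈ s, ab (c i)) = 1 + ∑ i ∈ s, ab (c i) + ab (c i) by ring]

/-- the set of subset sums is as large as it can be -/
def Tight (c : ι → ZMod N) (s : Finset ι) : Prop := (FS c s).card = 1 + ∑ i ∈ s, ab (c i)

lemma Tight.eq {c : ι → ZMod N} {s : Finset ι} (h : Tight c s) :
    ∃ x, FS c s = I x (1 + ∑ i ∈ s, ab (c i)) := by
  obtain ⟨x, hx⟩ := FS_sub c s
  refine ⟨x, eq_of_subset_of_card_le hx ?_⟩
  have h1 : (FS c s).card ≤ N := by
    have := card_le_univ (FS c s)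
    rwa [ZMod.card] at this
  unfold Tight at h
  rw [card_I (by omega)]
  omega

/-- adding a small element to a tight set -/
lemma Tight.insert_small {c : ι → ZMod N} {s : Finset ι} (h : Tight c s) {i : ι} (hi : i ∉ s)
    (hsmall : ab (c i) ≤ 1 + ∑ j ∈ s, ab (c j)) (hN : (FS c (insert i s)).card < N) :
    Tight c (insert i s) := by
  obtain ⟨x, hx⟩ := h.eq
  obtain ⟨x', hx'⟩ := two_I x _ (c i) hsmall
  unfold Tight
  rw [FS_insert hi, hx, hx'] at hN ⊢
  rw [sum_insert hi]
  have h1 : 1 + ∑ j ∈ s, ab (c j) + ab (c i) ≤ N := by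
    by_contra hcon
    rw [I_univ (by omega), card_univ, ZMod.card] at hN
    omega
  rw [card_I h1]
  ring

/-- a maximal subset containing `s0` with a property -/
lemma exists_max {P : Finset ι → Prop} {s0 s : Finset ι} (h0 : P s0) (hs : s0 ⊆ s) :
    ∃ U, s0 ⊆ U ∧ U ⊆ s ∧ P U ∧ ∀ i ∈ s, i ∉ U → ¬ P (insert i U) := by
  classical
  obtain ⟨U, hU, hmax⟩ := exists_max_image (s.powerset.filter (fun U => s0 ⊆ U ∧ P U))
    (fun U => U.card) ⟨s0, mem_filter.2 ⟨mem_powerset.2 hs, subset_rfl, h0⟩⟩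
  rw [mem_filter, mem_powerset] at hU
  refine ⟨U, hU.2.1, hU.1, hU.2.2, fun i hi hiU hP => ?_⟩
  have h1 := hmax (insert i U) (mem_filter.2 ⟨mem_powerset.2 (insert_subset hi hU.1),
    hU.2.1.trans (subset_insert _ _), hP⟩)
  rw [card_insert_of_notMem hiU] at h1
  omega

/-- adding elements `± g` to a progression with step `g` -/
lemma isAP_extend {c : ι → ZMod N} {V s : Finset ι} {g : ZMod N} (hN : 2 ≤ N)
    (hV : IsAP g (FS c V)) (hVs : V ⊆ s) (h : ∀ i ∈ s, i ∉ V → c i = g ∨ c i = -g) :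
    IsAP g (FS c s) := by
  obtain ⟨U, hVU, hUs, hU, hmax⟩ := exists_max (P := fun U => IsAP g (FS c U)) hV hVs
  have : U = s := by
    refine Subset.antisymm hUs fun i hi => ?_
    by_contra hiU
    apply hmax i hi hiU
    rw [FS_insert hiU]
    exact hU.two hN (h i hi (fun hiV => hiU (hVU hiV))) (FS_nonempty _ _)
  rwa [this] at hU

/-- The main step. -/
lemma main_step {c : ι → ZMod N} {s : Finset ι} (hc : ∀ i ∈ s, IsUnit (c i))
    {i0 : ι} (hi0 : i0 ∈ s) (h0 : c i0 = 1) (h1 : (FS c s).card < 2 * s.card)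
    (h2 : (FS c s).card + 2 ≤ N) :
    Tight c s ∨ ∃ j ∈ s, c j ≠ 1 ∧ c j ≠ -1 ∧ IsAP (c j) (FS c s) := by
  have hN3 : 3 ≤ N := by
    have := (FS_nonempty c s).card_pos
    omega
  have hlt : ∀ U ⊆ s, (FS c U).card + 2 ≤ N := fun U hU =>
    (Nat.add_le_add_right (card_le_card (FS_mono c hU)) 2).trans h2
  have hT0 : Tight c {i0} := by
    have h3 : Tight c (∅ : Finset ι) := by
      unfold Tight
      rw [FS_empty]
      simp
    have h4 := h3.insert_small (i := i0) (notMem_empty i0)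
      (by rw [h0, ab_one (by omega)]; simp)
      (by
        have := hlt (insert i0 ∅) (by simpa using hi0)
        omega)
    simpa using h4
  obtain ⟨U, hi0U, hUs, hU, hUmax⟩ := exists_max (P := fun U => Tight c U) hT0
    (singleton_subset_iff.2 hi0)
  by_cases hUs' : U = s
  · left
    rwa [hUs'] at hU
  right
  -- the remaining elements are large
  set l := 1 + ∑ i ∈ U, ab (c i) with hl
  have hbig : ∀ j ∈ s, j ∉ U → l < ab (c j) := by
    intro j hj hjU
    by_contra hcon
    refine hUmax j hj hjU (hU.insert_small hjU (by omega) ?_)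
    have := hlt (insert j U) (insert_subset hj hUs)
    omega
  have hl2 : 2 ≤ l := by
    have : ab (c i0) ≤ ∑ i ∈ U, ab (c i) :=
      single_le_sum (f := fun i => ab (c i)) (fun _ _ => Nat.zero_le _)
        (singleton_subset_iff.1 hi0U)
    rw [h0, ab_one (by omega)] at this
    omega
  obtain ⟨j1, hj1s, hj1U⟩ : ∃ j ∈ s, j ∉ U := by
    by_contra hcon
    push Not at hcon
    exact hUs' (Subset.antisymm hUs hcon)
  obtain ⟨x, hx⟩ := hU.eq
  have hlU : U.card + 1 ≤ l := by
    have h3 := card_FS_ge c U (fun i hi => hc i (hUs hi)) (by have := hlt U hUs; omega)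
    have h4 : (FS c U).card = l := hU
    omega
  have hV0 : 2 * (insert j1 U).card ≤ (FS c (insert j1 U)).card := by
    rw [FS_insert hj1U, hx, card_two_I x _ _ (hbig j1 hj1s hj1U).le, card_insert_of_notMem hj1U]
    omega
  obtain ⟨V, hUV, hVs, hV, hVmax⟩ := exists_max (P := fun V => 2 * V.card ≤ (FS c V).card) hV0
    (insert_subset hj1s hUs)
  have hUV' : U ⊆ V := (subset_insert _ _).trans hUV
  -- every remaining element increases the number of sums by one
  have hone : ∀ d ∈ s, d ∉ V → (FS c V).card = 2 * V.card ∧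
      (two (FS c V) (c d)).card = (FS c V).card + 1 := by
    intro d hd hdV
    have h3 := hVmax d hd hdV
    have h4 := FS_grow hdV (hc d hd) (ne_univ_of_card (by have := hlt V hVs; omega))
    rw [card_insert_of_notMem hdV] at h3
    rw [FS_insert hdV] at h3 h4
    constructor <;> omega
  obtain ⟨d0, hd0s, hd0V⟩ : ∃ j ∈ s, j ∉ V := by
    by_contra hcon
    push Not at hcon
    have h3 : V = s := Subset.antisymm hVs hcon
    rw [h3] at hV
    omega
  obtain ⟨hVc, hVd⟩ := hone d0 hd0s hd0V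
  obtain ⟨g, hg⟩ := hc d0 hd0s
  have hAP : IsAP (g : ZMod N) (FS c V) := isAP_of_card (FS_nonempty _ _) g (by rw [hg]; exact hVd)
  have hV2 : 1 ≤ V.card := card_pos.2 ⟨j1, hUV (mem_insert_self _ _)⟩
  have hall : ∀ d ∈ s, d ∉ V → c d = c d0 ∨ c d = -c d0 := by
    intro d hd hdV
    obtain ⟨h, hh⟩ := hc d hd
    have h3 := hAP.unique (h := h) (by rw [hh]; exact (hone d hd hdV).2) (by omega) (hlt V hVs)
    rwa [hh, hg] at h3
  refine ⟨d0, hd0s, ?_, ?_, ?_⟩
  · intro h3
    have := hbig d0 hd0s (fun h => hd0V (hUV' h))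
    rw [h3, ab_one (by omega)] at this
    omega
  · intro h3
    have := hbig d0 hd0s (fun h => hd0V (hUV' h))
    rw [h3, ab_neg, ab_one (by omega)] at this
    omega
  · rw [hg] at hAP
    exact isAP_extend (by omega) hAP hVs hall

/-- scaling of progressions -/
lemma IsAP.scale {S : Finset (ZMod N)} {g : ZMod N} (h : IsAP g S) (u : ZMod N) :
    IsAP (u * g) (S.image (fun y => u * y)) := by
  obtain ⟨x, l, rfl⟩ := h
  refine ⟨x, l, ?_⟩
  rw [image_image]
  congr 1
  ext1 y
  simp [mul_assoc]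

/-- Lemma B. -/
lemma exists_tight {c : ι → ZMod N} {s : Finset ι} (hc : ∀ i ∈ s, IsUnit (c i))
    (h1 : (FS c s).card < 2 * s.card) (h2 : (FS c s).card + 2 ≤ N) :
    ∃ u : (ZMod N)ˣ, Tight (fun i => (u : ZMod N) * c i) s := by
  have hN3 : 3 ≤ N := by
    have := (FS_nonempty c s).card_pos
    omega
  have hs : s.Nonempty := by
    rw [← card_pos]
    omega
  obtain ⟨i0, hi0⟩ := hs
  obtain ⟨g, hg⟩ := hc i0 hi0
  have hscale : ∀ (u : (ZMod N)ˣ) i, i ∈ s → IsUnit ((u : ZMod N) * c i) := fun u i hi =>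
    u.isUnit.mul (hc i hi)
  rcases main_step (c := fun i => ((g⁻¹ : (ZMod N)ˣ) : ZMod N) * c i) (s := s)
    (hscale g⁻¹) hi0 (by simp [← hg]) (by rw [card_FS_scale]; exact h1)
    (by rw [card_FS_scale]; exact h2) with h3 | h3
  · exact ⟨g⁻¹, h3⟩
  obtain ⟨j, hj, hj1, hj2, hjAP⟩ := h3
  obtain ⟨h, hh⟩ := hc j hj
  rcases main_step (c := fun i => ((h⁻¹ : (ZMod N)ˣ) : ZMod N) * c i) (s := s)
    (hscale h⁻¹) hj (by simp [← hh]) (by rw [card_FS_scale]; exact h1)
    (by rw [card_FS_scale]; exact h2) with h4 | h4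
  · exact ⟨h⁻¹, h4⟩
  exfalso
  obtain ⟨k, hk, hk1, hk2, hkAP⟩ := h4
  obtain ⟨w, hw⟩ := hc k hk
  -- the set of sums has steps `h` and `w`
  have h5 : IsAP (h : ZMod N) (FS c s) := by
    have := hjAP.scale (g : ZMod N)
    rw [FS_scale, image_inv] at this
    simpa [← hh] using this
  have h6 : IsAP (w : ZMod N) (FS c s) := by
    have := hkAP.scale (h : ZMod N)
    rw [FS_scale, image_inv] at this
    simpa [← hw] using this
  have h7 := card_FS_ge c s hc (by omega)
  have h8 : 1 ≤ s.card := card_pos.2 ⟨i0, hi0⟩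
  have h9 := h5.unique (h := w) (h6.card_two (by omega) (by omega)) (by omega) h2
  rcases h9 with h9 | h9
  · apply hk1
    rw [← hw, h9]
    simp
  · apply hk2
    rw [← hw, h9]
    simp

end Pool.Agent.H173K.PC
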