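import Pool.Agent.H173K.PC.Chowla
import Pool.Agent.H173K.PC.Sums

set_option autoImplicit false
set_option linter.unusedSectionVars false

/-!
Vosper's theorem.
-/

namespace Pool.Agent.H173K.PC

open Finset
open scoped Pointwise

variable {N : ℕ} [NeZero N]

/-- intervals of `ZMod N` -/
def IsI (S : Finset (ZMod N)) : Prop := ∃ x l, S = I x l

lemma I_add {x y : ZMod N} {a b : ℕ} (ha : 1 ≤ a) (hb : 1 ≤ b) :
    I x a + I y b = I (x + y) (a + b - 1) := by
  ext z
  rw [mem_add]
  constructor
  · rintro ⟨_, h1, _, h2, rfl⟩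
    obtain ⟨i, hi, rfl⟩ := mem_I.1 h1
    obtain ⟨j, hj, rfl⟩ := mem_I.1 h2
    exact mem_I.2 ⟨i + j, by omega, by push_cast; ring⟩
  · intro hz
    obtain ⟨i, hi, rfl⟩ := mem_I.1 hz
    rcases lt_or_ge i a with h | h
    · exact ⟨x + i, mem_I.2 ⟨i, h, rfl⟩, y + (0 : ℕ), mem_I.2 ⟨0, by omega, rfl⟩, by push_cast; ring⟩
    · refine ⟨x + (a - 1 : ℕ), mem_I.2 ⟨a - 1, by omega, rfl⟩, y + (i - (a - 1) : ℕ),
        mem_I.2 ⟨i - (a - 1), by omega, rfl⟩, ?_⟩
      have h1 : (i : ZMod N) = ((a - 1 : ℕ) : ZMod N) + ((i - (a - 1) : ℕ) : ZMod N) := by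
        rw [← Nat.cast_add]
        congr 1
        omega
      rw [h1]
      ring

lemma IsI.add {A B : Finset (ZMod N)} (hA : IsI A) (hB : IsI B) : IsI (A + B) := by
  obtain ⟨x, a, rfl⟩ := hA
  obtain ⟨y, b, rfl⟩ := hB
  rcases Nat.eq_zero_or_pos a with h | h
  · subst h
    exact ⟨0, 0, by simp [I]⟩
  rcases Nat.eq_zero_or_pos b with h' | h'
  · subst h'
    exact ⟨0, 0, by simp [I]⟩
  exact ⟨_, _, I_add h h'⟩

lemma IsI.neg {A : Finset (ZMod N)} (hA : IsI A) : IsI (-A) := by
  obtain ⟨x, a, rfl⟩ := hA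
  refine ⟨-(x + (a - 1 : ℕ)), a, ?_⟩
  ext z
  rw [mem_neg]
  constructor
  · rintro ⟨y, hy, rfl⟩
    obtain ⟨i, hi, rfl⟩ := mem_I.1 hy
    refine mem_I.2 ⟨a - 1 - i, by omega, ?_⟩
    have h1 : ((a - 1 : ℕ) : ZMod N) = ((a - 1 - i : ℕ) : ZMod N) + i := by
      rw [← Nat.cast_add]
      congr 1
      omega
    rw [h1]
    ring
  · intro hz
    obtain ⟨i, hi, rfl⟩ := mem_I.1 hz
    refine ⟨x + (a - 1 - i : ℕ), mem_I.2 ⟨a - 1 - i, by omega, rfl⟩, ?_⟩
    have h1 : ((a - 1 : ℕ) : ZMod N) = ((a - 1 - i : ℕ) : ZMod N) + i := by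
      rw [← Nat.cast_add]
      congr 1
      omega
    rw [h1]
    ring

lemma IsI.translate {A : Finset (ZMod N)} (hA : IsI A) (t : ZMod N) :
    IsI (A.image (fun y => y + t)) := by
  obtain ⟨x, a, rfl⟩ := hA
  refine ⟨x + t, a, ?_⟩
  ext z
  rw [mem_image, mem_I]
  constructor
  · rintro ⟨y, hy, rfl⟩
    obtain ⟨i, hi, rfl⟩ := mem_I.1 hy
    exact ⟨i, hi, by ring⟩
  · rintro ⟨i, hi, rfl⟩
    exact ⟨x + i, mem_I.2 ⟨i, hi, rfl⟩, by ring⟩

lemma compl_I {x : ZMod N} {l : ℕ} (h : l ≤ N) :
    (I x l)ᶜ = I (x + (l : ZMod N)) (N - l) := by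
  symm
  refine eq_of_subset_of_card_le ?_ ?_
  · intro y hy
    obtain ⟨i, hi, rfl⟩ := mem_I.1 hy
    rw [mem_compl, mem_I]
    rintro ⟨j, hj, hij⟩
    have h1 : ((l + i : ℕ) : ZMod N) = (j : ZMod N) := by
      push_cast
      linear_combination -hij
    have h2 := congrArg ZMod.val h1
    rw [ZMod.val_natCast_of_lt (by omega), ZMod.val_natCast_of_lt (by omega)] at h2
    omega
  · rw [card_compl, ZMod.card, card_I h, card_I (by omega)]

/-- different elements have invertible differences -/
def UD (B : Finset (ZMod N)) : Prop := ∀ b ∈ B, ∀ b' ∈ B, b ≠ b' → IsUnit (b - b')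

omit [NeZero N] in
lemma UD.mono {B C : Finset (ZMod N)} (hB : UD B) (h : C ⊆ B) : UD C :=
  fun b hb b' hb' hbb => hB b (h hb) b' (h hb') hbb

lemma add_I_succ (B : Finset (ZMod N)) (x : ZMod N) {a : ℕ} (ha : 1 ≤ a) :
    B + I x (a + 1) = two (B + I x a) 1 := by
  ext z
  rw [mem_add, mem_two]
  constructor
  · rintro ⟨b, hb, _, h, rfl⟩
    obtain ⟨i, hi, rfl⟩ := mem_I.1 h
    rcases Nat.lt_or_ge i a with h1 | h1
    · exact Or.inl (add_mem_add hb (mem_I.2 ⟨i, h1, rfl⟩))
    · refine Or.inr ⟨b + (x + (i - 1 : ℕ)), add_mem_add hb (mem_I.2 ⟨i - 1, by omega, rfl⟩), ?_⟩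
      rw [Nat.cast_sub (by omega)]
      push_cast
      ring
  · rintro (h | ⟨w, hw, rfl⟩)
    · obtain ⟨b, hb, _, h', rfl⟩ := mem_add.1 h
      obtain ⟨i, hi, rfl⟩ := mem_I.1 h'
      exact ⟨b, hb, _, mem_I.2 ⟨i, by omega, rfl⟩, rfl⟩
    · obtain ⟨b, hb, _, h', rfl⟩ := mem_add.1 hw
      obtain ⟨i, hi, rfl⟩ := mem_I.1 h'
      exact ⟨b, hb, x + (i + 1 : ℕ), mem_I.2 ⟨i + 1, by omega, rfl⟩, by push_cast; ring⟩

/-- A critical pair with an interval of at least two elements. -/
lemma isI_of_crit {B : Finset (ZMod N)} (hB : B.Nonempty) {x : ZMod N} {a : ℕ} (ha : 2 ≤ a)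
    (h1 : (B + I x a).card + 1 ≤ B.card + a) (h2 : (B + I x a).card < N) : IsI B := by
  have hgrow : ∀ j : ℕ, 2 ≤ j → (B + I x j).card < N →
      (B + I x 2).card + (j - 2) ≤ (B + I x j).card := by
    intro j hj
    induction j, hj using Nat.le_induction with
    | base => intro _; simp
    | succ j hj ih =>
      intro hlt
      rw [add_I_succ B x (a := j) (by omega)] at hlt ⊢
      have h3 : (B + I x j).card ≤ (two (B + I x j) 1).card := card_le_card subset_union_left
      have h4 := ih (by omega)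
      have h5 := grow_one (S := B + I x j) (hB.add ⟨x, mem_I.2 ⟨0, by omega, by simp⟩⟩)
        (ne_univ_of_card (by omega))
      omega
  have h3 := hgrow a ha h2
  have h4 : (B + I x 2).card = (two B 1).card := by
    rw [show (2 : ℕ) = 1 + 1 from rfl, add_I_succ B x le_rfl]
    have h5 : B + I x 1 = B.image (fun y => y + x) := by
      ext z
      rw [mem_add, mem_image]
      constructor
      · rintro ⟨b, hb, _, h, rfl⟩
        obtain ⟨i, hi, rfl⟩ := mem_I.1 h
        have : i = 0 := by omega
        subst this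
        exact ⟨b, hb, by simp⟩
      · rintro ⟨b, hb, rfl⟩
        exact ⟨b, hb, x, mem_I.2 ⟨0, by omega, by simp⟩, rfl⟩
    rw [h5]
    have h6 : two (B.image (fun y => y + x)) 1 = (two B 1).image (fun y => y + x) := by
      unfold two
      rw [image_union, image_image, image_image]
      congr 2
      ext1 y
      simp only [Function.comp_apply]
      ring
    rw [h6, card_image_of_injective _ (add_left_injective x)]
  have h5 : B.card ≤ (B + I x a).card :=
    card_le_card_add_right ⟨x, mem_I.2 ⟨0, by omega, by simp⟩⟩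
  have h6 := grow_one hB (ne_univ_of_card (by omega))
  obtain ⟨y, hy⟩ := eq_I_of_card hB (by omega)
  exact ⟨y, _, hy⟩

/-- In a critical pair whose sum is an interval the sets are intervals. -/
lemma isI_left {A B : Finset (ZMod N)} (hA : A.Nonempty) (hB : B.Nonempty)
    (hc : (A + B).card + 1 = A.card + B.card) (h2 : (A + B).card + 2 ≤ N) (hI : IsI (A + B)) :
    IsI A := by
  obtain ⟨x, l, hl⟩ := hI
  have hlN : l ≤ N := by
    by_contra hcon
    rw [hl, I_univ (by omega), card_univ, ZMod.card] at h2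
    omega
  have hcl : (A + B).card = l := by rw [hl, card_I hlN]
  have hC : (A + B)ᶜ = I (x + (l : ZMod N)) (N - l) := by rw [hl, compl_I hlN]
  have hsub : -A + (A + B)ᶜ ⊆ Bᶜ := by
    intro y hy
    obtain ⟨a, ha, c, hc', rfl⟩ := mem_add.1 hy
    rw [mem_neg] at ha
    obtain ⟨a, ha, rfl⟩ := ha
    rw [mem_compl] at hc' ⊢
    intro hb
    apply hc'
    have : c = a + (-a + c) := by ring
    rw [this]
    exact add_mem_add ha hb
  have h3 := card_le_card hsub
  rw [card_compl, ZMod.card] at h3
  have h4 : B.card ≤ N := by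
    have := card_le_univ B
    rwa [ZMod.card] at this
  have h5 := hB.card_pos
  rw [hC] at h3
  have h6 : IsI (-A) := isI_of_crit (B := -A) hA.neg (x := x + (l : ZMod N)) (a := N - l) (by omega)
    (by rw [card_neg]; omega) (by omega)
  have h7 := h6.neg
  rwa [neg_neg] at h7

lemma image_mul_add (g : ZMod N) (A B : Finset (ZMod N)) :
    (A + B).image (fun y => g * y) = A.image (fun y => g * y) + B.image (fun y => g * y) := by
  ext z
  rw [mem_image, mem_add]
  constructor
  · rintro ⟨y, hy, rfl⟩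
    obtain ⟨a, ha, b, hb, rfl⟩ := mem_add.1 hy
    exact ⟨_, mem_image_of_mem _ ha, _, mem_image_of_mem _ hb, by ring⟩
  · rintro ⟨_, h1, _, h2, rfl⟩
    obtain ⟨a, ha, rfl⟩ := mem_image.1 h1
    obtain ⟨b, hb, rfl⟩ := mem_image.1 h2
    exact ⟨a + b, add_mem_add ha hb, by ring⟩

/-- a good element for the transformation -/
lemma exists_e {A B : Finset (ZMod N)} (hA : 2 ≤ A.card) (hB : 3 ≤ B.card) (hU : UD B)
    (h0 : 0 ∈ B) (hc : (A + B).card + 1 = A.card + B.card) (h2 : (A + B).card + 2 ≤ N) :
    ∃ e ∈ A, 2 ≤ (B.filter (fun b => e + b ∈ A)).card ∧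
      (B.filter (fun b => e + b ∈ A)).card < B.card := by
  by_contra hcon
  push Not at hcon
  set A1 := A.filter (fun e => ∀ b ∈ B, e + b ∈ A) with hA1
  set A2 := A.filter (fun e => ¬ ∀ b ∈ B, e + b ∈ A) with hA2
  have hcard : A1.card + A2.card = A.card := card_filter_add_card_filter_not _
  have hA2' : ∀ e ∈ A2, ∀ b ∈ B, b ≠ 0 → e + b ∉ A := by
    intro e he b hb hb0 hab
    obtain ⟨heA, hne⟩ := mem_filter.1 he
    have h3 : 2 ≤ (B.filter (fun b => e + b ∈ A)).card := by
      have h4 := card_le_card (show ({0, b} : Finset (ZMod N)) ⊆ B.filter (fun b => e + b ∈ A) by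
        intro y hy
        rw [mem_insert, mem_singleton] at hy
        rcases hy with rfl | rfl
        · exact mem_filter.2 ⟨h0, by rw [add_zero]; exact heA⟩
        · exact mem_filter.2 ⟨hb, hab⟩)
      rwa [card_pair hb0.symm] at h4
    have h4 := hcon e heA h3
    apply hne
    have h5 : B.filter (fun b => e + b ∈ A) = B := eq_of_subset_of_card_le (filter_subset _ _) h4
    intro b' hb'
    rw [← h5] at hb'
    exact (mem_filter.1 hb').2
  have hA2ne : A2.Nonempty := by
    by_contra hne
    rw [not_nonempty_iff_eq_empty] at hne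
    have h3 : A + B ⊆ A := by
      intro y hy
      obtain ⟨a, ha, b, hb, rfl⟩ := mem_add.1 hy
      by_contra hab
      have : a ∈ A2 := mem_filter.2 ⟨ha, fun h => hab (h b hb)⟩
      rw [hne] at this
      exact notMem_empty _ this
    have := card_le_card h3
    omega
  have hBs : (B.erase 0).card = B.card - 1 := card_erase_of_mem h0
  have hBsne : (B.erase 0).Nonempty := by
    rw [← card_pos]
    omega
  have hdisj : Disjoint A (A2 + B.erase 0) := by
    rw [disjoint_left]
    intro y hy hy'
    obtain ⟨a, ha, b, hb, rfl⟩ := mem_add.1 hy'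
    exact hA2' a ha b (mem_of_mem_erase hb) (ne_of_mem_erase hb) hy
  have hsub : A ∪ (A2 + B.erase 0) ⊆ A + B := by
    apply union_subset
    · intro y hy
      exact mem_add.2 ⟨y, hy, 0, h0, add_zero _⟩
    · exact add_subset_add (filter_subset _ _) (erase_subset _ _)
  have h3 := card_le_card hsub
  rw [card_union_of_disjoint hdisj] at h3
  have h4 := chowla hA2ne hBsne (hU.mono (erase_subset _ _)) (by omega)
  have h5 : 1 ≤ A2.card := hA2ne.card_pos
  have hA1ne : A1.Nonempty := by
    rw [← card_pos]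
    omega
  have hsub2 : A1 + B ⊆ A := by
    intro y hy
    obtain ⟨a, ha, b, hb, rfl⟩ := mem_add.1 hy
    exact (mem_filter.1 ha).2 b hb
  have h6 := card_le_card hsub2
  have h7 := chowla hA1ne ⟨0, h0⟩ hU (by omega)
  omega

/-- Vosper's theorem -/
lemma vosper_aux (n : ℕ) : ∀ A B : Finset (ZMod N), B.card = n → 2 ≤ A.card →
    2 ≤ B.card → UD B → (A + B).card + 1 = A.card + B.card → (A + B).card + 2 ≤ N →
    ∃ g : (ZMod N)ˣ, IsI (A.image (fun y => (g : ZMod N) * y)) ∧
      IsI (B.image (fun y => (g : ZMod N) * y)) := by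
  induction n using Nat.strong_induction_on with
  | _ n ih =>
  intro A B hBn hA hB hU hc h2
  have hAne : A.Nonempty := by
    rw [← card_pos]
    omega
  rcases Nat.lt_or_ge B.card 3 with hB3 | hB3
  · -- two elements
    obtain ⟨b, b', hbb, rfl⟩ := card_eq_two.1 (show B.card = 2 by omega)
    have hv : IsUnit (b' - b) := hU b' (mem_insert_of_mem (mem_singleton_self _)) b
      (mem_insert_self _ _) hbb.symm
    obtain ⟨v, hv⟩ := hv
    have h3 : A + {b, b'} = (two A v).image (fun y => y + b) := by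
      ext z
      rw [mem_add, mem_image]
      constructor
      · rintro ⟨a, ha, y, hy, rfl⟩
        rw [mem_insert, mem_singleton] at hy
        rcases hy with rfl | rfl
        · exact ⟨a, mem_two.2 (Or.inl ha), rfl⟩
        · exact ⟨a + v, mem_two.2 (Or.inr ⟨a, ha, rfl⟩), by rw [hv]; ring⟩
      · rintro ⟨y, hy, rfl⟩
        rcases mem_two.1 hy with hy | ⟨w, hw, rfl⟩
        · exact ⟨y, hy, b, mem_insert_self _ _, rfl⟩
        · exact ⟨w, hw, b', mem_insert_of_mem (mem_singleton_self _), by rw [hv]; ring⟩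
    rw [h3, card_image_of_injective _ (add_left_injective b), card_pair hbb] at hc
    obtain ⟨x, l, hx⟩ := isAP_of_card hAne v (by omega)
    refine ⟨v⁻¹, ⟨x, l, ?_⟩, ⟨((v⁻¹ : (ZMod N)ˣ) : ZMod N) * b, 2, ?_⟩⟩
    · rw [hx, image_image]
      ext z
      rw [mem_image]
      constructor
      · rintro ⟨y, hy, rfl⟩
        simp only [Function.comp_apply]
        rw [← mul_assoc, Units.inv_mul, one_mul]
        exact hy
      · intro hz
        exact ⟨z, hz, by simp only [Function.comp_apply]; rw [← mul_assoc, Units.inv_mul, one_mul]⟩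
    · have h4 : b' = b + v := by rw [hv]; ring
      ext z
      rw [mem_image, mem_I]
      constructor
      · rintro ⟨y, hy, rfl⟩
        rw [mem_insert, mem_singleton] at hy
        rcases hy with rfl | rfl
        · exact ⟨0, by omega, by rw [Nat.cast_zero, add_zero]⟩
        · exact ⟨1, by omega, by rw [h4, mul_add, Units.inv_mul, Nat.cast_one]⟩
      · rintro ⟨i, hi, rfl⟩
        interval_cases i
        · exact ⟨b, mem_insert_self _ _, by rw [Nat.cast_zero, add_zero]⟩
        · exact ⟨b', mem_insert_of_mem (mem_singleton_self _), by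
            rw [h4, mul_add, Units.inv_mul, Nat.cast_one]⟩
  · -- at least three elements
    obtain ⟨b0, hb0⟩ : B.Nonempty := by
      rw [← card_pos]
      omega
    set B0 := B.image (fun y => y - b0) with hB0
    have hB0c : B0.card = B.card := card_image_of_injective _ sub_left_injective
    have h00 : (0 : ZMod N) ∈ B0 := mem_image.2 ⟨b0, hb0, sub_self _⟩
    have hU0 : UD B0 := by
      intro x hx x' hx' hxx
      obtain ⟨y, hy, rfl⟩ := mem_image.1 hx
      obtain ⟨y', hy', rfl⟩ := mem_image.1 hx'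
      rw [sub_sub_sub_cancel_right]
      exact hU y hy y' hy' (fun h => hxx (by rw [h]))
    have hAB0 : A + B0 = (A + B).image (fun y => y - b0) := by
      ext z
      rw [mem_add, mem_image]
      constructor
      · rintro ⟨a, ha, y, hy, rfl⟩
        obtain ⟨b, hb, rfl⟩ := mem_image.1 hy
        exact ⟨a + b, add_mem_add ha hb, by ring⟩
      · rintro ⟨y, hy, rfl⟩
        obtain ⟨a, ha, b, hb, rfl⟩ := mem_add.1 hy
        exact ⟨a, ha, b - b0, mem_image.2 ⟨b, hb, rfl⟩, by ring⟩
    have hAB0c : (A + B0).card = (A + B).card := by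
      rw [hAB0, card_image_of_injective _ sub_left_injective]
    obtain ⟨e, he, he2, helt⟩ := exists_e hA (by omega) hU0 h00 (by omega) (by omega)
    set B' := B0.filter (fun b => e + b ∈ A) with hB'
    set A' := A ∪ B0.image (fun b => e + b) with hA'
    have hinter : A ∩ B0.image (fun b => e + b) = B'.image (fun b => e + b) := by
      ext z
      rw [mem_inter, mem_image, mem_image]
      constructor
      · rintro ⟨h1, b, hb, rfl⟩
        exact ⟨b, mem_filter.2 ⟨hb, h1⟩, rfl⟩
      · rintro ⟨b, hb, rfl⟩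
        exact ⟨(mem_filter.1 hb).2, b, (mem_filter.1 hb).1, rfl⟩
    have hA'c : A'.card + B'.card = A.card + B0.card := by
      have h3 := card_union_add_card_inter A (B0.image (fun b => e + b))
      rw [hinter, card_image_of_injective _ (add_right_injective e),
        card_image_of_injective _ (add_right_injective e)] at h3
      exact h3
    have hsub : A' + B' ⊆ A + B0 := by
      intro y hy
      obtain ⟨a, ha, b, hb, rfl⟩ := mem_add.1 hy
      obtain ⟨hb1, hb2⟩ := mem_filter.1 hb
      rcases mem_union.1 ha with ha | ha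
      · exact add_mem_add ha hb1
      · obtain ⟨b1, hb1', rfl⟩ := mem_image.1 ha
        have : e + b1 + b = (e + b) + b1 := by ring
        rw [this]
        exact add_mem_add hb2 hb1'
    have hA'A : A.card ≤ A'.card := card_le_card subset_union_left
    have hA'ne : A'.Nonempty := hAne.mono subset_union_left
    have hB'ne : B'.Nonempty := by
      rw [← card_pos]
      omega
    have h3 := card_le_card hsub
    have h4 := chowla hA'ne hB'ne (hU0.mono (filter_subset _ _)) (by omega)
    have heq : A' + B' = A + B0 := eq_of_subset_of_card_le hsub (by omega)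
    obtain ⟨g, hg1, hg2⟩ := ih B'.card (by omega) A' B' rfl (by omega) he2
      (hU0.mono (filter_subset _ _)) (by rw [heq]; omega) (by rw [heq]; omega)
    have hg3 : IsI ((A + B0).image (fun y => (g : ZMod N) * y)) := by
      rw [← heq, image_mul_add]
      exact hg1.add hg2
    have hcg : ∀ X : Finset (ZMod N), (X.image (fun y => (g : ZMod N) * y)).card = X.card :=
      fun X => card_image_of_injective _ (mul_inj g.isUnit)
    have hg4 : IsI (A.image (fun y => (g : ZMod N) * y)) := by
      refine isI_left (hAne.image _) (Nonempty.image ⟨0, h00⟩ _) ?_ ?_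
        (by rw [← image_mul_add]; exact hg3)
      · rw [← image_mul_add, hcg, hcg, hcg]
        omega
      · rw [← image_mul_add, hcg]
        omega
    have hg5 : IsI (B0.image (fun y => (g : ZMod N) * y)) := by
      refine isI_left (Nonempty.image ⟨0, h00⟩ _) (hAne.image _) ?_ ?_
        (by rw [← image_mul_add, add_comm B0]; exact hg3)
      · rw [← image_mul_add, hcg, hcg, hcg, add_comm B0]
        omega
      · rw [← image_mul_add, hcg, add_comm B0]
        omega
    refine ⟨g, hg4, ?_⟩
    have h5 := hg5.translate ((g : ZMod N) * b0)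
    rw [hB0, image_image, image_image] at h5
    convert h5 using 2
    ext1 y
    simp only [Function.comp_apply]
    ring

/-- Vosper's theorem, for a second set with invertible differences -/
theorem vosper {A B : Finset (ZMod N)} (hA : 2 ≤ A.card) (hB : 2 ≤ B.card) (hU : UD B)
    (hc : (A + B).card + 1 = A.card + B.card) (h2 : (A + B).card + 2 ≤ N) :
    ∃ g : (ZMod N)ˣ, IsI (A.image (fun y => (g : ZMod N) * y)) ∧
      IsI (B.image (fun y => (g : ZMod N) * y)) :=
  vosper_aux _ A B rfl hA hB hU hc h2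

end Pool.Agent.H173K.PC
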